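import Mathlib

/-!
# Covering radii of lattices generated by unit vectors and Komlós's conjecture

Is the covering radius in the maximum norm of lattices generated by unit vectors bounded? We show:

* if it is at most `C` for all such lattices, then all finite families of unit vectors have
  combinations with bounded odd coefficients and bounded maximum norm; if `C < 3 / 2`, the
  coefficients can be taken to be `1` and `-1`, so that Komlós's conjecture holds;
* it is bounded if and only if all finite families of unit vectors with all coordinates in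
  `{0, 1, 1/2, 1/4, ...}` have combinations with odd coefficients of bounded maximum norm.
-/

set_option autoImplicit false

namespace Pool.Agent.Results.MP_183cce_co.KomlosLink

open Finset

/-- Every `v i` has Euclidean norm one. -/
def UnitVectors {ι κ : Type} [Fintype κ] (v : ι → κ → ℝ) : Prop :=
  ∀ i, ∑ c, v i c ^ 2 = 1

/-- The integer span of the `v i` is discrete, that is, a lattice. -/
def DiscreteSpan {ι κ : Type} [Fintype ι] (v : ι → κ → ℝ) : Prop :=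
  ∃ ε : ℝ, 0 < ε ∧ ∀ a : ι → ℤ, (∀ c, |∑ i, (a i : ℝ) * v i c| < ε) →
    ∀ c, ∑ i, (a i : ℝ) * v i c = 0

/-- Every point of the real span of the `v i` is within `C` of their integer span, in the
maximum norm. -/
def CoveringRadiusLE {ι κ : Type} [Fintype ι] (v : ι → κ → ℝ) (C : ℝ) : Prop :=
  ∀ x : ι → ℝ, ∃ a : ι → ℤ, ∀ c, |∑ i, x i * v i c - ∑ i, (a i : ℝ) * v i c| ≤ C

/-- Every real combination of the `v i` can be rounded to an integer combination: coefficients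
change by at most `C` and the maximum norm of the difference is at most `C`. -/
def Rounds {ι κ : Type} [Fintype ι] (v : ι → κ → ℝ) (C : ℝ) : Prop :=
  ∀ x : ι → ℝ, ∃ a : ι → ℤ, (∀ i, |x i - a i| ≤ C) ∧ ∀ c, |∑ i, (x i - a i) * v i c| ≤ C

/-- All coordinates are zero or `1 / 2 ^ j` with a natural number `j`. -/
def Dyadic {ι κ : Type} (v : ι → κ → ℝ) : Prop :=
  ∀ i c, v i c = 0 ∨ ∃ j : ℕ, v i c = (1 / 2) ^ j

/-- The question with the constant `C`. -/
def QuestionWith (C : ℝ) : Prop :=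
  ∀ (ι κ : Type) [Fintype ι] [Fintype κ] (v : ι → κ → ℝ),
    UnitVectors v → DiscreteSpan v → CoveringRadiusLE v C

/-- Every finite family of dyadic unit vectors has a combination with odd coefficients whose
maximum norm is at most `C`. -/
def OddDyadicWith (C : ℝ) : Prop :=
  ∀ (ι κ : Type) [Fintype ι] [Fintype κ] (v : ι → κ → ℝ),
    UnitVectors v → Dyadic v →
      ∃ b : ι → ℤ, (∀ i, Odd (b i)) ∧ ∀ c, |∑ i, (b i : ℝ) * v i c| ≤ C

/-- Komlós's conjecture with the constant `K`. -/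
def KomlosWith (K : ℝ) : Prop :=
  ∀ (ι κ : Type) [Fintype ι] [Fintype κ] (v : ι → κ → ℝ), UnitVectors v →
    ∃ b : ι → ℤ, (∀ i, b i = 1 ∨ b i = -1) ∧ ∀ c, |∑ i, (b i : ℝ) * v i c| ≤ K

section Lemmas

variable {ι κ : Type} [Fintype ι] [Fintype κ]

/-- The exponents of a dyadic family are bounded. -/
theorem exists_bound (v : ι → κ → ℝ) (hv : Dyadic v) :
    ∃ J : ℕ, ∀ i c, v i c = 0 ∨ ∃ j : ℕ, j ≤ J ∧ v i c = (1 / 2) ^ j := by
  classical
  have h : ∀ i c, ∃ j : ℕ, v i c = 0 ∨ v i c = (1 / 2) ^ j := by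
    intro i c
    rcases hv i c with h | ⟨j, h⟩
    · exact ⟨0, Or.inl h⟩
    · exact ⟨j, Or.inr h⟩
  choose f hf using h
  refine ⟨∑ i, ∑ c, f i c, fun i c => ?_⟩
  rcases hf i c with h | h
  · exact Or.inl h
  · refine Or.inr ⟨f i c, ?_, h⟩
    calc f i c ≤ ∑ c, f i c := single_le_sum (fun _ _ => Nat.zero_le _) (mem_univ c)
      _ ≤ ∑ i, ∑ c, f i c :=
        single_le_sum (f := fun i => ∑ c, f i c) (fun _ _ => Nat.zero_le _) (mem_univ i)

/-- A dyadic family generates a lattice. -/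
theorem discrete_of_dyadic (v : ι → κ → ℝ) (hv : Dyadic v) : DiscreteSpan v := by
  obtain ⟨J, hJ⟩ := exists_bound v hv
  have h1 : ∀ i c, ∃ z : ℤ, v i c * 2 ^ J = z := by
    intro i c
    rcases hJ i c with h | ⟨j, hj, h⟩
    · exact ⟨0, by rw [h]; simp⟩
    · refine ⟨2 ^ (J - j), ?_⟩
      rw [h]
      push_cast
      rw [one_div, inv_pow, inv_mul_eq_div, div_eq_iff (by positivity), ← pow_add,
        Nat.sub_add_cancel hj]
  choose z hz using h1
  refine ⟨(1 / 2) ^ J, by positivity, fun a ha c => ?_⟩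
  have h2 : (∑ i, (a i : ℝ) * v i c) * 2 ^ J = ((∑ i, a i * z i c : ℤ) : ℝ) := by
    push_cast
    rw [sum_mul]
    refine sum_congr rfl fun i _ => ?_
    rw [mul_assoc, hz]
  have h3 : |((∑ i, a i * z i c : ℤ) : ℝ)| < 1 := by
    rw [← h2, abs_mul, abs_of_pos (by positivity : (0 : ℝ) < 2 ^ J)]
    calc |∑ i, (a i : ℝ) * v i c| * 2 ^ J < (1 / 2) ^ J * 2 ^ J :=
          mul_lt_mul_of_pos_right (ha c) (by positivity)
      _ = 1 := by rw [← mul_pow]; norm_num
  have h4 : (∑ i, a i * z i c : ℤ) = 0 := by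
    have : |(∑ i, a i * z i c : ℤ)| < 1 := by exact_mod_cast h3
    exact Int.abs_lt_one_iff.mp this
  rw [h4, Int.cast_zero] at h2
  rcases mul_eq_zero.mp h2 with h | h
  · exact h
  · exact absurd h (by positivity)

/-- Filling up to norm one. -/
theorem fill {K : ℝ} (H : OddDyadicWith K) (v : ι → κ → ℝ) (hv : Dyadic v)
    (hn : ∀ i, ∑ c, v i c ^ 2 ≤ 3 / 4) :
    ∃ b : ι → ℤ, (∀ i, Odd (b i)) ∧ (∀ c, |∑ i, (b i : ℝ) * v i c| ≤ K) ∧
      ∀ i, |(b i : ℝ)| ≤ 2 * K := by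
  classical
  obtain ⟨J, hJ⟩ := exists_bound v hv
  have h1 : ∀ i c, ∃ q : ℕ, 4 ^ (J + 1) * v i c ^ 2 = q := by
    intro i c
    rcases hJ i c with h | ⟨j, hj, h⟩
    · exact ⟨0, by rw [h]; simp⟩
    · refine ⟨4 ^ (J + 1 - j), ?_⟩
      rw [h]
      push_cast
      have h5 : ((1 / 2 : ℝ) ^ j) ^ 2 = (4 ^ j)⁻¹ := by
        rw [← pow_mul, mul_comm, pow_mul, ← inv_pow]
        norm_num
      rw [h5, mul_inv_eq_iff_eq_mul₀ (by positivity), ← pow_add, Nat.sub_add_cancel (by omega)]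
  choose q hq using h1
  have h2 : ∀ i, ((∑ c, q i c : ℕ) : ℝ) = 4 ^ (J + 1) * ∑ c, v i c ^ 2 := by
    intro i
    push_cast
    rw [mul_sum]
    exact sum_congr rfl fun c _ => (hq i c).symm
  have h3 : ∀ i, ∑ c, q i c ≤ 3 * 4 ^ J := by
    intro i
    have : ((∑ c, q i c : ℕ) : ℝ) ≤ ((3 * 4 ^ J : ℕ) : ℝ) := by
      rw [h2]
      push_cast
      calc (4 : ℝ) ^ (J + 1) * ∑ c, v i c ^ 2 ≤ 4 ^ (J + 1) * (3 / 4) :=
            mul_le_mul_of_nonneg_left (hn i) (by positivity)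
        _ = 3 * 4 ^ J := by ring
    exact_mod_cast this
  set N : ι → ℕ := fun i => 3 * 4 ^ J - ∑ c, q i c with hN
  have h4 : ∀ i, (N i : ℝ) = 3 * 4 ^ J - 4 ^ (J + 1) * ∑ c, v i c ^ 2 := by
    intro i
    rw [hN]
    simp only
    rw [Nat.cast_sub (h3 i), h2]
    push_cast
    ring
  let V : ι → (κ ⊕ (ι ⊕ (Σ i, Fin (N i)))) → ℝ := fun i c =>
    match c with
    | Sum.inl c => v i c
    | Sum.inr (Sum.inl i') => if i = i' then 1 / 2 else 0
    | Sum.inr (Sum.inr k) => if i = k.1 then (1 / 2) ^ (J + 1) else 0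
  have hV1 : UnitVectors V := by
    intro i
    rw [Fintype.sum_sum_type, Fintype.sum_sum_type, Fintype.sum_sigma]
    have e1 : ∑ i', V i (Sum.inr (Sum.inl i')) ^ 2 = 1 / 4 := by
      have : ∀ i', V i (Sum.inr (Sum.inl i')) ^ 2 = if i = i' then (1 / 4 : ℝ) else 0 := by
        intro i'
        show (if i = i' then (1 / 2 : ℝ) else 0) ^ 2 = _
        split_ifs <;> norm_num
      simp_rw [this]
      simp
    have e2 : ∑ i', ∑ k : Fin (N i'), V i (Sum.inr (Sum.inr ⟨i', k⟩)) ^ 2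
        = (N i : ℝ) * ((1 / 4) ^ (J + 1)) := by
      have : ∀ i', ∀ k : Fin (N i'), V i (Sum.inr (Sum.inr ⟨i', k⟩)) ^ 2
          = if i = i' then ((1 / 4 : ℝ)) ^ (J + 1) else 0 := by
        intro i' k
        show (if i = i' then ((1 / 2 : ℝ)) ^ (J + 1) else 0) ^ 2 = _
        split_ifs
        · rw [← pow_mul, mul_comm, pow_mul]; norm_num
        · norm_num
      simp_rw [this]
      simp
    have e3 : ∑ c, V i (Sum.inl c) ^ 2 = ∑ c, v i c ^ 2 := rfl
    rw [e1, e2, e3, h4]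
    have e4 : ((4 : ℝ)) ^ (J + 1) * (1 / 4) ^ (J + 1) = 1 := by rw [← mul_pow]; norm_num
    have e5 : ((4 : ℝ)) ^ J * (1 / 4) ^ (J + 1) = 1 / 4 := by
      rw [pow_succ, ← mul_assoc, ← mul_pow]; norm_num
    calc ∑ c, v i c ^ 2 + (1 / 4 + (3 * 4 ^ J - 4 ^ (J + 1) * ∑ c, v i c ^ 2) * (1 / 4) ^ (J + 1))
        = ∑ c, v i c ^ 2 + 1 / 4 + 3 * (4 ^ J * (1 / 4) ^ (J + 1))
          - (4 ^ (J + 1) * (1 / 4) ^ (J + 1)) * ∑ c, v i c ^ 2 := by ring
      _ = 1 := by rw [e4, e5]; ring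
  have hV2 : Dyadic V := by
    intro i c
    rcases c with c | i' | k
    · exact hv i c
    · show (if i = i' then (1 / 2 : ℝ) else 0) = 0 ∨ ∃ j : ℕ,
        (if i = i' then (1 / 2 : ℝ) else 0) = (1 / 2) ^ j
      split_ifs
      · exact Or.inr ⟨1, by norm_num⟩
      · exact Or.inl rfl
    · show (if i = k.1 then ((1 / 2 : ℝ)) ^ (J + 1) else 0) = 0 ∨ ∃ j : ℕ,
        (if i = k.1 then ((1 / 2 : ℝ)) ^ (J + 1) else 0) = (1 / 2) ^ j
      split_ifs
      · exact Or.inr ⟨J + 1, rfl⟩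
      · exact Or.inl rfl
  obtain ⟨b, hb1, hb2⟩ := H ι _ V hV1 hV2
  refine ⟨b, hb1, fun c => hb2 (Sum.inl c), fun i => ?_⟩
  have h6 := hb2 (Sum.inr (Sum.inl i))
  have h7 : ∑ i', (b i' : ℝ) * V i' (Sum.inr (Sum.inl i)) = b i * (1 / 2) := by
    have : ∀ i', (b i' : ℝ) * V i' (Sum.inr (Sum.inl i))
        = if i' = i then (b i' : ℝ) * (1 / 2) else 0 := by
      intro i'
      show (b i' : ℝ) * (if i' = i then (1 / 2 : ℝ) else 0) = _
      split_ifs <;> simp
    simp_rw [this]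
    simp
  rw [h7, abs_mul, abs_of_pos (by norm_num : (0 : ℝ) < 1 / 2)] at h6
  linarith

end Lemmas

/-- The largest power of two below a number. -/
theorem exists_top (r : ℝ) (h0 : 0 ≤ r) (h1 : r ≤ 1) :
    ∃ e : ℝ, (e = 0 ∨ ∃ j : ℕ, e = (1 / 2) ^ j) ∧ 0 ≤ e ∧ e ≤ r ∧ r - e ≤ r / 2 := by
  rcases h0.eq_or_lt with h | h
  · exact ⟨0, Or.inl rfl, le_refl _, by linarith, by linarith⟩
  · have hex : ∃ j : ℕ, (1 / 2 : ℝ) ^ j ≤ r := by
      obtain ⟨j, hj⟩ := exists_pow_lt_of_lt_one h (by norm_num : (1 / 2 : ℝ) < 1)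
      exact ⟨j, hj.le⟩
    classical
    refine ⟨(1 / 2) ^ Nat.find hex, Or.inr ⟨_, rfl⟩, by positivity, Nat.find_spec hex, ?_⟩
    rcases Nat.eq_zero_or_pos (Nat.find hex) with h2 | h2
    · rw [h2, pow_zero]; linarith
    · have h3 := Nat.find_min hex (m := Nat.find hex - 1) (by omega)
      push Not at h3
      obtain ⟨k, hk⟩ : ∃ k, Nat.find hex = k + 1 := ⟨Nat.find hex - 1, by omega⟩
      rw [hk] at h3 ⊢
      rw [Nat.add_sub_cancel] at h3
      rw [pow_succ]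
      linarith

/-- Binary expansion. -/
theorem exists_digits (u : ℝ) (h0 : 0 ≤ u) (h1 : u ≤ 1) :
    ∃ e : ℕ → ℝ, (∀ t, e t = 0 ∨ ∃ j : ℕ, t ≤ j ∧ e t = (1 / 2) ^ j) ∧
      (∀ t, 0 ≤ e t ∧ e t ≤ (1 / 2) ^ t * u) ∧
      ∀ T : ℕ, |u - ∑ t ∈ range T, e t| ≤ (1 / 2) ^ T := by
  classical
  have hex : ∀ r : ℝ, ∃ e : ℝ, 0 ≤ r → r ≤ 1 →
      (e = 0 ∨ ∃ j : ℕ, e = (1 / 2) ^ j) ∧ 0 ≤ e ∧ e ≤ r ∧ r - e ≤ r / 2 := by
    intro r
    by_cases h : 0 ≤ r ∧ r ≤ 1
    · obtain ⟨e, he⟩ := exists_top r h.1 h.2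
      exact ⟨e, fun _ _ => he⟩
    · exact ⟨0, fun h2 h3 => absurd ⟨h2, h3⟩ h⟩
  choose top htop using hex
  let r : ℕ → ℝ := fun t => Nat.rec u (fun _ x => x - top x) t
  have hr0 : r 0 = u := rfl
  have hr1 : ∀ t, r (t + 1) = r t - top (r t) := fun _ => rfl
  have hr : ∀ t, 0 ≤ r t ∧ r t ≤ (1 / 2) ^ t * u := by
    intro t
    induction t with
    | zero => rw [hr0]; exact ⟨h0, by simp⟩
    | succ t ih =>
      have hle : r t ≤ 1 := ih.2.trans (mul_le_one₀ (pow_le_one₀ (by norm_num) (by norm_num)) h0 h1)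
      obtain ⟨-, -, a2, a3⟩ := htop (r t) ih.1 hle
      rw [hr1]
      refine ⟨by linarith, a3.trans ?_⟩
      rw [pow_succ]
      linarith [ih.2]
  have hle : ∀ t, r t ≤ 1 := fun t =>
    (hr t).2.trans (mul_le_one₀ (pow_le_one₀ (by norm_num) (by norm_num)) h0 h1)
  refine ⟨fun t => top (r t), fun t => ?_, fun t => ?_, fun T => ?_⟩
  · obtain ⟨a0, a1, a2, -⟩ := htop (r t) (hr t).1 (hle t)
    rcases a0 with h | ⟨j, hj⟩
    · exact Or.inl h
    · refine Or.inr ⟨j, ?_, hj⟩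
      have h5 : (1 / 2 : ℝ) ^ j ≤ (1 / 2) ^ t := by
        rw [← hj]
        refine a2.trans ((hr t).2.trans ?_)
        exact mul_le_of_le_one_right (by positivity) h1
      by_contra h6
      push Not at h6
      exact absurd h5 (not_le.mpr (pow_lt_pow_right_of_lt_one₀ (by norm_num) (by norm_num) h6))
  · obtain ⟨-, a1, a2, -⟩ := htop (r t) (hr t).1 (hle t)
    exact ⟨a1, a2.trans (hr t).2⟩
  · have h7 : u - ∑ t ∈ range T, top (r t) = r T := by
      induction T with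
      | zero => simp [hr0]
      | succ T ih => rw [sum_range_succ, hr1, ← ih]; ring
    rw [h7, abs_of_nonneg (hr T).1]
    exact (hr T).2.trans (mul_le_of_le_one_right (by positivity) h1)

theorem geom_bound (T : ℕ) : ∑ t ∈ range T, (1 / 2 : ℝ) ^ t ≤ 2 := by
  have h : ∑ t ∈ range T, (1 / 2 : ℝ) ^ t = 2 - 2 * (1 / 2) ^ T := by
    induction T with
    | zero => simp
    | succ T ih => rw [sum_range_succ, ih, pow_succ]; ring
  rw [h]
  have : (0 : ℝ) ≤ (1 / 2) ^ T := by positivity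
  linarith

theorem half_bound (S : ℕ) : ∑ t ∈ range (2 * S), (1 / 2 : ℝ) ^ (t / 2) ≤ 4 := by
  have h : ∑ t ∈ range (2 * S), (1 / 2 : ℝ) ^ (t / 2) = 4 - 4 * (1 / 2) ^ S := by
    induction S with
    | zero => simp
    | succ S ih =>
      rw [show 2 * (S + 1) = 2 * S + 1 + 1 by ring, sum_range_succ, sum_range_succ, ih,
        show 2 * S / 2 = S by omega, show (2 * S + 1) / 2 = S by omega, pow_succ]
      ring
  rw [h]
  have : (0 : ℝ) ≤ (1 / 2) ^ S := by positivity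
  linarith

section Main

variable {ι κ : Type} [Fintype ι] [Fintype κ]

/-- Odd combinations of nonnegative vectors of norm at most one. -/
theorem nonneg_case {K : ℝ} (H : OddDyadicWith K) (u : ι → κ → ℝ) (h0 : ∀ i c, 0 ≤ u i c)
    (hn : ∀ i, ∑ c, u i c ^ 2 ≤ 1) :
    ∃ b : ι → ℤ, (∀ i, Odd (b i)) ∧ ∀ c, |∑ i, (b i : ℝ) * u i c| ≤ 8 * K + 1 := by
  classical
  have h1 : ∀ i c, u i c ≤ 1 := by
    intro i c
    have : u i c ^ 2 ≤ 1 :=
      (single_le_sum (f := fun c => u i c ^ 2) (fun _ _ => sq_nonneg _) (mem_univ c)).trans (hn i)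
    nlinarith [h0 i c]
  choose e he1 he2 he3 using fun i c => exists_digits (u i c) (h0 i c) (h1 i c)
  -- number of digits
  obtain ⟨S, hS⟩ : ∃ S : ℕ, (Fintype.card ι : ℝ) * (2 * K) * (1 / 2) ^ (2 * S) ≤ 1 := by
    rcases le_or_gt ((Fintype.card ι : ℝ) * (2 * K)) 0 with h | h
    · exact ⟨0, (mul_nonpos_of_nonpos_of_nonneg h (by positivity)).trans (by norm_num)⟩
    · obtain ⟨S, hS⟩ := exists_pow_lt_of_lt_one
        (show (0 : ℝ) < 1 / ((Fintype.card ι : ℝ) * (2 * K)) by positivity)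
        (by norm_num : (1 / 4 : ℝ) < 1)
      refine ⟨S, ?_⟩
      rw [pow_mul, show ((1 / 2 : ℝ)) ^ 2 = 1 / 4 by norm_num]
      rw [lt_div_iff₀ h] at hS
      linarith [mul_comm ((Fintype.card ι : ℝ) * (2 * K)) ((1 / 4 : ℝ) ^ S)]
  let V : ι → (κ × Fin (2 * S)) → ℝ := fun i p => 1 / 2 * (2 ^ (p.2.val / 2) * e i p.1 p.2.val)
  have hV1 : Dyadic V := by
    intro i p
    rcases he1 i p.1 p.2.val with h | ⟨j, hj, h⟩
    · left
      show 1 / 2 * (2 ^ (p.2.val / 2) * e i p.1 p.2.val) = 0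
      rw [h]; simp
    · right
      refine ⟨j + 1 - p.2.val / 2, ?_⟩
      show 1 / 2 * (2 ^ (p.2.val / 2) * e i p.1 p.2.val) = _
      rw [h]
      have h2 : j + 1 = (j + 1 - p.2.val / 2) + p.2.val / 2 := by omega
      have h3 : (1 / 2 : ℝ) ^ (j + 1) = (1 / 2) ^ (j + 1 - p.2.val / 2) * (1 / 2) ^ (p.2.val / 2) := by
        rw [← pow_add, ← h2]
      have h4 : (2 : ℝ) ^ (p.2.val / 2) * (1 / 2) ^ (p.2.val / 2) = 1 := by
        rw [← mul_pow]; norm_num
      calc 1 / 2 * (2 ^ (p.2.val / 2) * (1 / 2 : ℝ) ^ j)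
          = 2 ^ (p.2.val / 2) * (1 / 2) ^ (j + 1) := by rw [pow_succ]; ring
        _ = (1 / 2) ^ (j + 1 - p.2.val / 2) * (2 ^ (p.2.val / 2) * (1 / 2) ^ (p.2.val / 2)) := by
            rw [h3]; ring
        _ = _ := by rw [h4, mul_one]
  have hV2 : ∀ i, ∑ p, V i p ^ 2 ≤ 3 / 4 := by
    intro i
    rw [Fintype.sum_prod_type]
    have h2 : ∀ c, ∑ t : Fin (2 * S), V i (c, t) ^ 2 ≤ u i c ^ 2 * (1 / 2) := by
      intro c
      have h3 : ∀ t : Fin (2 * S), V i (c, t) ^ 2 ≤ u i c ^ 2 * (1 / 4) * (1 / 2) ^ t.val := by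
        intro t
        show (1 / 2 * (2 ^ (t.val / 2) * e i c t.val)) ^ 2 ≤ _
        have h4 := he2 i c t.val
        have h5 : e i c t.val ^ 2 ≤ ((1 / 2) ^ t.val * u i c) ^ 2 :=
          pow_le_pow_left₀ h4.1 h4.2 2
        have h6 : ((2 : ℝ) ^ (t.val / 2)) ^ 2 ≤ 2 ^ t.val := by
          rw [← pow_mul]
          exact pow_le_pow_right₀ (by norm_num) (by omega)
        have h7 : (2 : ℝ) ^ t.val * (1 / 2) ^ t.val = 1 := by rw [← mul_pow]; norm_num
        calc (1 / 2 * (2 ^ (t.val / 2) * e i c t.val)) ^ 2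
            = 1 / 4 * (((2 : ℝ) ^ (t.val / 2)) ^ 2 * e i c t.val ^ 2) := by ring
          _ ≤ 1 / 4 * (2 ^ t.val * ((1 / 2) ^ t.val * u i c) ^ 2) := by
              refine mul_le_mul_of_nonneg_left ?_ (by norm_num)
              exact mul_le_mul h6 h5 (sq_nonneg _) (by positivity)
          _ = u i c ^ 2 * (1 / 4) * (1 / 2) ^ t.val * (2 ^ t.val * (1 / 2) ^ t.val) := by ring
          _ = _ := by rw [h7, mul_one]
      calc ∑ t : Fin (2 * S), V i (c, t) ^ 2
          ≤ ∑ t : Fin (2 * S), u i c ^ 2 * (1 / 4) * (1 / 2) ^ t.val :=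
            sum_le_sum fun t _ => h3 t
        _ = u i c ^ 2 * (1 / 4) * ∑ t ∈ range (2 * S), (1 / 2 : ℝ) ^ t := by
            rw [← mul_sum, Fin.sum_univ_eq_sum_range (fun t => (1 / 2 : ℝ) ^ t)]
        _ ≤ u i c ^ 2 * (1 / 4) * 2 :=
            mul_le_mul_of_nonneg_left (geom_bound _) (by positivity)
        _ = _ := by ring
    calc ∑ c, ∑ t : Fin (2 * S), V i (c, t) ^ 2 ≤ ∑ c, u i c ^ 2 * (1 / 2) :=
          sum_le_sum fun c _ => h2 c
      _ = (∑ c, u i c ^ 2) * (1 / 2) := by rw [sum_mul]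
      _ ≤ 1 * (1 / 2) := mul_le_mul_of_nonneg_right (hn i) (by norm_num)
      _ ≤ 3 / 4 := by norm_num
  obtain ⟨b, hb1, hb2, hb3⟩ := fill H V hV1 hV2
  refine ⟨b, hb1, fun c => ?_⟩
  have h2 : ∑ i, (b i : ℝ) * u i c = (∑ t ∈ range (2 * S), ∑ i, (b i : ℝ) * e i c t)
      + ∑ i, (b i : ℝ) * (u i c - ∑ t ∈ range (2 * S), e i c t) := by
    rw [sum_comm, ← sum_add_distrib]
    refine sum_congr rfl fun i _ => ?_
    rw [← mul_sum]
    ring
  have h3 : ∀ t ∈ range (2 * S), |∑ i, (b i : ℝ) * e i c t| ≤ 2 * K * (1 / 2) ^ (t / 2) := by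
    intro t ht
    have h4 := hb2 (c, ⟨t, mem_range.mp ht⟩)
    have h5 : ∑ i, (b i : ℝ) * V i (c, ⟨t, mem_range.mp ht⟩)
        = (1 / 2 * 2 ^ (t / 2)) * ∑ i, (b i : ℝ) * e i c t := by
      rw [mul_sum]
      refine sum_congr rfl fun i _ => ?_
      show (b i : ℝ) * (1 / 2 * (2 ^ (t / 2) * e i c t)) = _
      ring
    rw [h5, abs_mul, abs_of_pos (by positivity : (0 : ℝ) < 1 / 2 * 2 ^ (t / 2))] at h4
    have h6 : (2 : ℝ) ^ (t / 2) * (1 / 2) ^ (t / 2) = 1 := by rw [← mul_pow]; norm_num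
    calc |∑ i, (b i : ℝ) * e i c t|
        = 2 * (1 / 2) ^ (t / 2) * (1 / 2 * 2 ^ (t / 2) * |∑ i, (b i : ℝ) * e i c t|) := by
          linear_combination (-|∑ i, (b i : ℝ) * e i c t|) * h6
      _ ≤ 2 * (1 / 2) ^ (t / 2) * K := mul_le_mul_of_nonneg_left h4 (by positivity)
      _ = _ := by ring
  have hK : 0 ≤ K := by
    by_contra hneg
    push Not at hneg
    rcases isEmpty_or_nonempty ι with hι | ⟨⟨i⟩⟩
    · obtain ⟨b', -, hb'⟩ := H PUnit PUnit (fun _ _ => 1) (fun _ => by simp)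
        (fun _ _ => Or.inr ⟨0, by simp⟩)
      have := hb' PUnit.unit
      exact absurd ((abs_nonneg _).trans this) (not_le.mpr hneg)
    · have := (abs_nonneg _).trans (hb3 i)
      linarith
  have h7 : |∑ t ∈ range (2 * S), ∑ i, (b i : ℝ) * e i c t| ≤ 8 * K := by
    calc |∑ t ∈ range (2 * S), ∑ i, (b i : ℝ) * e i c t|
        ≤ ∑ t ∈ range (2 * S), |∑ i, (b i : ℝ) * e i c t| := abs_sum_le_sum_abs _ _
      _ ≤ ∑ t ∈ range (2 * S), 2 * K * (1 / 2) ^ (t / 2) := sum_le_sum h3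
      _ = 2 * K * ∑ t ∈ range (2 * S), (1 / 2 : ℝ) ^ (t / 2) := by rw [mul_sum]
      _ ≤ 2 * K * 4 := mul_le_mul_of_nonneg_left (half_bound S) (by linarith)
      _ = 8 * K := by ring
  have h8 : |∑ i, (b i : ℝ) * (u i c - ∑ t ∈ range (2 * S), e i c t)| ≤ 1 := by
    calc |∑ i, (b i : ℝ) * (u i c - ∑ t ∈ range (2 * S), e i c t)|
        ≤ ∑ i, |(b i : ℝ) * (u i c - ∑ t ∈ range (2 * S), e i c t)| := abs_sum_le_sum_abs _ _
      _ ≤ ∑ _i : ι, 2 * K * (1 / 2) ^ (2 * S) := by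
          refine sum_le_sum fun i _ => ?_
          rw [abs_mul]
          exact mul_le_mul (hb3 i) (he3 i c (2 * S)) (abs_nonneg _) (by linarith)
      _ = (Fintype.card ι : ℝ) * (2 * K) * (1 / 2) ^ (2 * S) := by
          rw [sum_const, card_univ, nsmul_eq_mul]; ring
      _ ≤ 1 := hS
  rw [h2]
  exact (abs_add_le _ _).trans (add_le_add h7 h8)

/-- Odd combinations of arbitrary vectors of norm at most one. -/
theorem signed_case {K : ℝ} (H : OddDyadicWith K) (u : ι → κ → ℝ)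
    (hn : ∀ i, ∑ c, u i c ^ 2 ≤ 1) :
    ∃ b : ι → ℤ, (∀ i, Odd (b i)) ∧ ∀ c, |∑ i, (b i : ℝ) * u i c| ≤ 16 * K + 2 := by
  let V : ι → (κ ⊕ κ) → ℝ := fun i c =>
    match c with
    | Sum.inl c => max (u i c) 0
    | Sum.inr c => max (-u i c) 0
  have h1 : ∀ i c, 0 ≤ V i c := by
    intro i c
    rcases c with c | c
    · exact le_max_right _ _
    · exact le_max_right _ _
  have h2 : ∀ i, ∑ c, V i c ^ 2 ≤ 1 := by
    intro i
    rw [Fintype.sum_sum_type, ← sum_add_distrib]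
    refine le_trans (le_of_eq (sum_congr rfl fun c _ => ?_)) (hn i)
    show max (u i c) 0 ^ 2 + max (-u i c) 0 ^ 2 = _
    rcases le_total 0 (u i c) with h | h
    · rw [max_eq_left h, max_eq_right (by linarith)]; ring
    · rw [max_eq_right h, max_eq_left (by linarith)]; ring
  obtain ⟨b, hb1, hb2⟩ := nonneg_case H V h1 h2
  refine ⟨b, hb1, fun c => ?_⟩
  have h3 : ∑ i, (b i : ℝ) * u i c
      = ∑ i, (b i : ℝ) * V i (Sum.inl c) - ∑ i, (b i : ℝ) * V i (Sum.inr c) := by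
    rw [← sum_sub_distrib]
    refine sum_congr rfl fun i _ => ?_
    show (b i : ℝ) * u i c = (b i : ℝ) * max (u i c) 0 - (b i : ℝ) * max (-u i c) 0
    rcases le_total 0 (u i c) with h | h
    · rw [max_eq_left h, max_eq_right (by linarith)]; ring
    · rw [max_eq_right h, max_eq_left (by linarith)]; ring
  rw [h3]
  have h4 := hb2 (Sum.inl c)
  have h5 := hb2 (Sum.inr c)
  have h6 := abs_sub (∑ i, (b i : ℝ) * V i (Sum.inl c)) (∑ i, (b i : ℝ) * V i (Sum.inr c))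
  linarith

/-- Dyadic points. -/
theorem dyadic_points {M : ℝ} (v : ι → κ → ℝ)
    (HM : ∀ O : ι → Prop, ∃ b : ι → ℤ, (∀ i, O i → Odd (b i)) ∧ (∀ i, ¬ O i → b i = 0) ∧
      ∀ c, |∑ i, (b i : ℝ) * v i c| ≤ M) (k : ℕ) :
    ∀ z : ι → ℤ, ∃ a : ι → ℤ, ∀ c,
      |∑ i, ((z i : ℝ) / 2 ^ k - a i) * v i c| ≤ M * (1 - (1 / 2) ^ k) := by
  induction k with
  | zero =>
    intro z
    exact ⟨z, fun c => by simp⟩
  | succ k ih =>
    intro z
    obtain ⟨b, hb1, hb2, hb3⟩ := HM fun i => Odd (z i)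
    have h1 : ∀ i, ∃ y : ℤ, z i = 2 * y + b i := by
      intro i
      by_cases h : Odd (z i)
      · obtain ⟨p, hp⟩ := h
        obtain ⟨q, hq⟩ := hb1 i ⟨p, hp⟩
        exact ⟨p - q, by omega⟩
      · obtain ⟨p, hp⟩ := Int.not_odd_iff_even.mp h
        exact ⟨p, by rw [hb2 i h]; omega⟩
    choose y hy using h1
    obtain ⟨a, ha⟩ := ih y
    refine ⟨a, fun c => ?_⟩
    have h2 : ∑ i, ((z i : ℝ) / 2 ^ (k + 1) - a i) * v i c
        = ∑ i, ((y i : ℝ) / 2 ^ k - a i) * v i c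
          + (1 / 2) ^ (k + 1) * ∑ i, (b i : ℝ) * v i c := by
      rw [mul_sum, ← sum_add_distrib]
      refine sum_congr rfl fun i _ => ?_
      have h3 : (z i : ℝ) = 2 * y i + b i := by exact_mod_cast hy i
      rw [h3, one_div, inv_pow, pow_succ]
      field_simp
      ring
    rw [h2]
    refine (abs_add_le _ _).trans ?_
    have h4 : |(1 / 2 : ℝ) ^ (k + 1) * ∑ i, (b i : ℝ) * v i c| ≤ (1 / 2) ^ (k + 1) * M := by
      rw [abs_mul, abs_of_pos (by positivity : (0 : ℝ) < (1 / 2) ^ (k + 1))]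
      exact mul_le_mul_of_nonneg_left (hb3 c) (by positivity)
    have h5 := ha c
    have h6 : M * (1 - (1 / 2) ^ k) + (1 / 2) ^ (k + 1) * M = M * (1 - (1 / 2) ^ (k + 1)) := by
      rw [pow_succ]; ring
    linarith

theorem const_nonneg {K : ℝ} (H : OddDyadicWith K) : 0 ≤ K := by
  obtain ⟨b', -, hb'⟩ := H PUnit PUnit (fun _ _ => 1) (fun _ => by simp)
    (fun _ _ => Or.inr ⟨0, by simp⟩)
  exact (abs_nonneg _).trans (hb' PUnit.unit)

/-- From odd combinations of all subfamilies to the rounding of all real points. -/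
theorem rounding_of {M δ : ℝ} (hδ : 0 < δ) (v : ι → κ → ℝ) (hv1 : ∀ i c, |v i c| ≤ 1)
    (hM : 0 ≤ M)
    (HM : ∀ O : ι → Prop, ∃ b : ι → ℤ, (∀ i, O i → Odd (b i)) ∧ (∀ i, ¬ O i → b i = 0) ∧
      ∀ c, |∑ i, (b i : ℝ) * v i c| ≤ M) (x : ι → ℝ) :
    ∃ a : ι → ℤ, ∀ c, |∑ i, (x i - a i) * v i c| ≤ M + δ := by
  classical
  obtain ⟨k, hk⟩ : ∃ k : ℕ, (Fintype.card ι : ℝ) * (1 / 2) ^ k ≤ δ := by
    obtain ⟨k, hk⟩ := exists_pow_lt_of_lt_one
      (show (0 : ℝ) < δ / ((Fintype.card ι : ℝ) + 1) by positivity)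
      (by norm_num : (1 / 2 : ℝ) < 1)
    refine ⟨k, ?_⟩
    rw [lt_div_iff₀ (by positivity)] at hk
    have : (0 : ℝ) ≤ (1 / 2) ^ k := by positivity
    linarith
  obtain ⟨a, ha⟩ := dyadic_points v HM k (fun i => ⌊x i * 2 ^ k⌋)
  refine ⟨a, fun c => ?_⟩
  have h2 : ∑ i, (x i - a i) * v i c
      = ∑ i, (x i - (⌊x i * 2 ^ k⌋ : ℝ) / 2 ^ k) * v i c
        + ∑ i, ((⌊x i * 2 ^ k⌋ : ℝ) / 2 ^ k - a i) * v i c := by
    rw [← sum_add_distrib]
    refine sum_congr rfl fun i _ => ?_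
    ring
  have h3 : |∑ i, (x i - (⌊x i * 2 ^ k⌋ : ℝ) / 2 ^ k) * v i c| ≤ δ := by
    calc |∑ i, (x i - (⌊x i * 2 ^ k⌋ : ℝ) / 2 ^ k) * v i c|
        ≤ ∑ i, |(x i - (⌊x i * 2 ^ k⌋ : ℝ) / 2 ^ k) * v i c| := abs_sum_le_sum_abs _ _
      _ ≤ ∑ _i : ι, (1 / 2 : ℝ) ^ k := by
          refine sum_le_sum fun i _ => ?_
          rw [abs_mul]
          have h4 : |x i - (⌊x i * 2 ^ k⌋ : ℝ) / 2 ^ k| ≤ (1 / 2) ^ k := by
            have h5 := Int.floor_le (x i * 2 ^ k)
            have h6 := (Int.lt_floor_add_one (x i * 2 ^ k)).le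
            have h7 : (0 : ℝ) < 2 ^ k := by positivity
            have h8 : x i - (⌊x i * 2 ^ k⌋ : ℝ) / 2 ^ k
                = (x i * 2 ^ k - ⌊x i * 2 ^ k⌋) * (1 / 2) ^ k := by
              have h9 : (2 : ℝ) ^ k * (1 / 2) ^ k = 1 := by rw [← mul_pow]; norm_num
              rw [div_eq_mul_inv, ← inv_pow, ← one_div]
              linear_combination (-x i) * h9
            rw [h8, abs_mul, abs_of_pos (by positivity : (0 : ℝ) < (1 / 2) ^ k),
              abs_of_nonneg (by linarith)]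
            exact mul_le_of_le_one_left (by positivity) (by linarith)
          calc |x i - (⌊x i * 2 ^ k⌋ : ℝ) / 2 ^ k| * |v i c| ≤ (1 / 2) ^ k * 1 :=
                mul_le_mul h4 (hv1 i c) (abs_nonneg _) (by positivity)
            _ = (1 / 2) ^ k := mul_one _
      _ = (Fintype.card ι : ℝ) * (1 / 2) ^ k := by
          rw [sum_const, card_univ, nsmul_eq_mul]
      _ ≤ δ := hk
  have h4 := ha c
  have h5 : M * (1 - (1 / 2) ^ k) ≤ M := by
    have h6 : (0 : ℝ) ≤ (1 / 2) ^ k := by positivity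
    nlinarith [mul_nonneg hM h6]
  rw [h2]
  refine (abs_add_le _ _).trans ?_
  linarith

theorem abs_le_one (v : ι → κ → ℝ) (hn : ∀ i, ∑ c, v i c ^ 2 ≤ 1) (i : ι) (c : κ) :
    |v i c| ≤ 1 := by
  have : v i c ^ 2 ≤ 1 :=
    (single_le_sum (f := fun c => v i c ^ 2) (fun _ _ => sq_nonneg _) (mem_univ c)).trans (hn i)
  rwa [sq_le_one_iff_abs_le_one] at this

/-- From odd combinations to the rounding of all real points. -/
theorem rounding {K : ℝ} (H : OddDyadicWith K) (v : ι → κ → ℝ)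
    (hn : ∀ i, ∑ c, v i c ^ 2 ≤ 1) (x : ι → ℝ) :
    ∃ a : ι → ℤ, ∀ c, |∑ i, (x i - a i) * v i c| ≤ 16 * K + 3 := by
  classical
  have hK := const_nonneg H
  have HM : ∀ O : ι → Prop, ∃ b : ι → ℤ, (∀ i, O i → Odd (b i)) ∧ (∀ i, ¬ O i → b i = 0) ∧
      ∀ c, |∑ i, (b i : ℝ) * v i c| ≤ 16 * K + 2 := by
    intro O
    obtain ⟨b, hb1, hb2⟩ := signed_case H (fun i c => if O i then v i c else 0) (by
      intro i
      by_cases h : O i
      · simp only [h, if_true]; exact hn i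
      · simp [h])
    refine ⟨fun i => if O i then b i else 0, fun i h => ?_, fun i h => ?_, fun c => ?_⟩
    · simp only [h, if_true]; exact hb1 i
    · simp [h]
    · have h1 : ∑ i, (((if O i then b i else 0 : ℤ)) : ℝ) * v i c
          = ∑ i, (b i : ℝ) * (if O i then v i c else 0) := by
        refine sum_congr rfl fun i _ => ?_
        by_cases h : O i <;> simp [h]
      rw [h1]
      exact hb2 c
  obtain ⟨a, ha⟩ := rounding_of one_pos v (abs_le_one v hn) (by linarith) HM x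
  exact ⟨a, fun c => by linarith [ha c]⟩

/-- Komlós's conjecture implies the question, with every larger constant. -/
theorem covering_of_komlos {K C : ℝ} (H : KomlosWith K) (hC : K < C) (v : ι → κ → ℝ)
    (hv : UnitVectors v) : CoveringRadiusLE v C := by
  classical
  intro x
  have hK : 0 ≤ K := by
    obtain ⟨b', -, hb'⟩ := H PUnit PUnit (fun _ _ => 1) (fun _ => by simp)
    exact (abs_nonneg _).trans (hb' PUnit.unit)
  have HM : ∀ O : ι → Prop, ∃ b : ι → ℤ, (∀ i, O i → Odd (b i)) ∧ (∀ i, ¬ O i → b i = 0) ∧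
      ∀ c, |∑ i, (b i : ℝ) * v i c| ≤ K := by
    intro O
    let V : ι → (κ ⊕ PUnit) → ℝ := fun i c =>
      match c with
      | Sum.inl c => if O i then v i c else 0
      | Sum.inr _ => if O i then 0 else 1
    have hV : UnitVectors V := by
      intro i
      rw [Fintype.sum_sum_type]
      by_cases h : O i
      · have e1 : ∀ c, V i (Sum.inl c) = v i c := fun c => by simp [V, h]
        have e2 : ∀ c, V i (Sum.inr c) = 0 := fun c => by simp [V, h]
        simp_rw [e1, e2]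
        rw [hv i]
        simp
      · have e1 : ∀ c, V i (Sum.inl c) = 0 := fun c => by simp [V, h]
        have e2 : ∀ c, V i (Sum.inr c) = 1 := fun c => by simp [V, h]
        simp_rw [e1, e2]
        simp
    obtain ⟨b, hb1, hb2⟩ := H ι _ V hV
    refine ⟨fun i => if O i then b i else 0, fun i h => ?_, fun i h => ?_, fun c => ?_⟩
    · simp only [h, if_true]
      rcases hb1 i with h | h
      · rw [h]; exact odd_one
      · rw [h]; exact ⟨-1, by norm_num⟩
    · simp [h]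
    · have h1 : ∑ i, (((if O i then b i else 0 : ℤ)) : ℝ) * v i c
          = ∑ i, (b i : ℝ) * V i (Sum.inl c) := by
        refine sum_congr rfl fun i _ => ?_
        by_cases h : O i <;> simp [V, h]
      rw [h1]
      exact hb2 (Sum.inl c)
  obtain ⟨a, ha⟩ := rounding_of (sub_pos.mpr hC) v (abs_le_one v fun i => (hv i).le) hK HM x
  refine ⟨a, fun c => ?_⟩
  rw [← sum_sub_distrib]
  have h1 := ha c
  have h2 : ∑ i, (x i * v i c - (a i : ℝ) * v i c) = ∑ i, (x i - a i) * v i c :=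
    sum_congr rfl fun i _ => by ring
  rw [h2]
  linarith

/-- The question with the constant `C` gives odd combinations with small coefficients. -/
theorem odd_combination {C t : ℝ} (H : QuestionWith C) (h0 : 0 < t) (h1 : t < 1)
    (v : ι → κ → ℝ) (hv : UnitVectors v) :
    ∃ b : ι → ℤ, (∀ i, Odd (b i) ∧ |(b i : ℝ)| ≤ 2 * C / t) ∧
      ∀ c, |∑ i, (b i : ℝ) * v i c| ≤ 2 * C / √(1 - t ^ 2) := by
  classical
  have hs : 0 < 1 - t ^ 2 := by nlinarith
  have hr : 0 < √(1 - t ^ 2) := Real.sqrt_pos.mpr hs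
  let V : ι → (κ ⊕ ι) → ℝ := fun i c =>
    match c with
    | Sum.inl c => √(1 - t ^ 2) * v i c
    | Sum.inr i' => if i = i' then t else 0
  have e0 : ∀ (y : ι → ℝ) (i : ι), ∑ i', y i' * V i' (Sum.inr i) = y i * t := by
    intro y i
    have : ∀ i', y i' * V i' (Sum.inr i) = if i' = i then y i' * t else 0 := by
      intro i'
      show y i' * (if i' = i then t else 0) = _
      split_ifs <;> simp
    simp_rw [this]
    simp
  have hV : UnitVectors V := by
    intro i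
    rw [Fintype.sum_sum_type]
    have e1 : ∑ i', V i (Sum.inr i') ^ 2 = t ^ 2 := by
      have : ∀ i', V i (Sum.inr i') ^ 2 = if i = i' then t ^ 2 else 0 := by
        intro i'
        show (if i = i' then t else 0) ^ 2 = _
        split_ifs <;> simp
      simp_rw [this]
      simp
    have e2 : ∑ c, V i (Sum.inl c) ^ 2 = (1 - t ^ 2) * ∑ c, v i c ^ 2 := by
      rw [mul_sum]
      refine sum_congr rfl fun c _ => ?_
      show (√(1 - t ^ 2) * v i c) ^ 2 = _
      rw [mul_pow, Real.sq_sqrt hs.le]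
    rw [e1, e2, hv i]
    ring
  have hD : DiscreteSpan V := by
    refine ⟨t, h0, fun a ha c => ?_⟩
    have ha0 : ∀ i, a i = 0 := by
      intro i
      have h2 := ha (Sum.inr i)
      rw [e0 (fun i => (a i : ℝ)), abs_mul, abs_of_pos h0] at h2
      have h3 : |(a i : ℝ)| < 1 := by
        by_contra h4
        have h4 := not_lt.mp h4
        nlinarith
      have : |a i| < 1 := by exact_mod_cast h3
      exact Int.abs_lt_one_iff.mp this
    simp [ha0]
  obtain ⟨a, ha⟩ := H ι _ V hV hD (fun _ => 1 / 2)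
  have key : ∀ c, |∑ i, (((1 - 2 * a i : ℤ)) : ℝ) * V i c| ≤ 2 * C := by
    intro c
    have h2 : ∑ i, (((1 - 2 * a i : ℤ)) : ℝ) * V i c
        = 2 * (∑ i, 1 / 2 * V i c - ∑ i, (a i : ℝ) * V i c) := by
      rw [← sum_sub_distrib, mul_sum]
      refine sum_congr rfl fun i _ => ?_
      push_cast
      ring
    rw [h2, abs_mul, abs_of_pos (by norm_num : (0 : ℝ) < 2)]
    exact mul_le_mul_of_nonneg_left (ha c) (by norm_num)
  refine ⟨fun i => 1 - 2 * a i, fun i => ⟨⟨-a i, by ring⟩, ?_⟩, fun c => ?_⟩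
  · have h2 := key (Sum.inr i)
    rw [e0 (fun i => (((1 - 2 * a i : ℤ)) : ℝ)), abs_mul, abs_of_pos h0] at h2
    rw [le_div_iff₀ h0]
    exact h2
  · have h2 := key (Sum.inl c)
    have h3 : ∑ i, (((1 - 2 * a i : ℤ)) : ℝ) * V i (Sum.inl c)
        = √(1 - t ^ 2) * ∑ i, (((1 - 2 * a i : ℤ)) : ℝ) * v i c := by
      rw [mul_sum]
      refine sum_congr rfl fun i _ => ?_
      show (((1 - 2 * a i : ℤ)) : ℝ) * (√(1 - t ^ 2) * v i c) = _
      ring
    rw [h3, abs_mul, abs_of_pos hr] at h2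
    rw [le_div_iff₀ hr]
    linarith

/-- The rounding with bounded change of the coefficients. -/
theorem rounds {K : ℝ} (H : OddDyadicWith K) (v : ι → κ → ℝ) (hv : UnitVectors v) :
    Rounds v (32 * K + 6) := by
  classical
  intro x
  let V : ι → (κ ⊕ ι) → ℝ := fun i c =>
    match c with
    | Sum.inl c => 1 / 2 * v i c
    | Sum.inr i' => if i = i' then 1 / 2 else 0
  have h1 : ∀ i, ∑ c, V i c ^ 2 ≤ 1 := by
    intro i
    rw [Fintype.sum_sum_type]
    have e1 : ∑ i', V i (Sum.inr i') ^ 2 = 1 / 4 := by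
      have : ∀ i', V i (Sum.inr i') ^ 2 = if i = i' then (1 / 4 : ℝ) else 0 := by
        intro i'
        show (if i = i' then (1 / 2 : ℝ) else 0) ^ 2 = _
        split_ifs <;> norm_num
      simp_rw [this]
      simp
    have e2 : ∑ c, V i (Sum.inl c) ^ 2 = 1 / 4 * ∑ c, v i c ^ 2 := by
      rw [mul_sum]
      refine sum_congr rfl fun c _ => ?_
      show (1 / 2 * v i c) ^ 2 = _
      ring
    rw [e1, e2, hv i]
    norm_num
  obtain ⟨a, ha⟩ := rounding H V h1 x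
  refine ⟨a, fun i => ?_, fun c => ?_⟩
  · have h2 := ha (Sum.inr i)
    have h3 : ∑ i', (x i' - a i') * V i' (Sum.inr i) = (x i - a i) * (1 / 2) := by
      have : ∀ i', (x i' - a i') * V i' (Sum.inr i)
          = if i' = i then (x i' - a i') * (1 / 2) else 0 := by
        intro i'
        show (x i' - a i') * (if i' = i then (1 / 2 : ℝ) else 0) = _
        split_ifs <;> simp
      simp_rw [this]
      simp
    rw [h3, abs_mul, abs_of_pos (by norm_num : (0 : ℝ) < 1 / 2)] at h2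
    linarith
  · have h2 := ha (Sum.inl c)
    have h3 : ∑ i, (x i - a i) * V i (Sum.inl c) = 1 / 2 * ∑ i, (x i - a i) * v i c := by
      rw [mul_sum]
      refine sum_congr rfl fun i _ => ?_
      show (x i - a i) * (1 / 2 * v i c) = _
      ring
    rw [h3, abs_mul, abs_of_pos (by norm_num : (0 : ℝ) < 1 / 2)] at h2
    linarith

end Main

theorem odd_of_question {C : ℝ} (H : QuestionWith C) : OddDyadicWith (2 * C) := by
  intro ι κ _ _ v hv hd
  obtain ⟨a, ha⟩ := H ι κ v hv (discrete_of_dyadic v hd) (fun _ => 1 / 2)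
  refine ⟨fun i => 1 - 2 * a i, fun i => ⟨-a i, by ring⟩, fun c => ?_⟩
  have h1 : ∑ i, (((1 - 2 * a i : ℤ)) : ℝ) * v i c
      = 2 * (∑ i, 1 / 2 * v i c - ∑ i, (a i : ℝ) * v i c) := by
    rw [← sum_sub_distrib, mul_sum]
    refine sum_congr rfl fun i _ => ?_
    push_cast
    ring
  rw [h1, abs_mul, abs_of_pos (by norm_num : (0 : ℝ) < 2)]
  exact mul_le_mul_of_nonneg_left (ha c) (by norm_num)

theorem komlos_of_question {C t : ℝ} (H : QuestionWith C) (h0 : 0 < t) (h1 : t < 1)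
    (h2 : 2 * C / 3 < t) : KomlosWith (2 * C / √(1 - t ^ 2)) := by
  intro ι κ _ _ v hv
  obtain ⟨b, hb1, hb2⟩ := odd_combination H h0 h1 v hv
  refine ⟨b, fun i => ?_, hb2⟩
  obtain ⟨⟨p, hp⟩, h3⟩ := hb1 i
  have h4 : |(b i : ℝ)| < 3 := by
    refine lt_of_le_of_lt h3 ?_
    rw [div_lt_iff₀ h0]
    linarith
  have h5 : |b i| < 3 := by exact_mod_cast h4
  rw [abs_lt] at h5
  omega

theorem result :
    (∀ C t : ℝ, QuestionWith C → 0 < t → t < 1 →
      ∀ (ι κ : Type) [Fintype ι] [Fintype κ] (v : ι → κ → ℝ), UnitVectors v →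
        ∃ b : ι → ℤ, (∀ i, Odd (b i) ∧ |(b i : ℝ)| ≤ 2 * C / t) ∧
          ∀ c, |∑ i, (b i : ℝ) * v i c| ≤ 2 * C / √(1 - t ^ 2)) ∧
    (∀ C t : ℝ, QuestionWith C → 0 < t → t < 1 → 2 * C / 3 < t →
      KomlosWith (2 * C / √(1 - t ^ 2))) ∧
    ((∃ C, C < 3 / 2 ∧ QuestionWith C) → ∃ K, KomlosWith K) ∧
    (∀ K C : ℝ, KomlosWith K → K < C → QuestionWith C) ∧
    (∀ C : ℝ, OddDyadicWith C →
      ∀ (ι κ : Type) [Fintype ι] [Fintype κ] (v : ι → κ → ℝ), UnitVectors v →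
        Rounds v (32 * C + 6)) ∧
    ((∃ C, QuestionWith C) ↔ ∃ C, OddDyadicWith C) := by
  have h2 : ∀ C : ℝ, OddDyadicWith C →
      ∀ (ι κ : Type) [Fintype ι] [Fintype κ] (v : ι → κ → ℝ), UnitVectors v →
        Rounds v (32 * C + 6) := fun C H ι κ _ _ v hv => rounds H v hv
  have h4 : ∀ C : ℝ, OddDyadicWith C → QuestionWith (32 * C + 6) := by
    intro C H ι κ _ _ v hv _ x
    obtain ⟨a, -, ha⟩ := h2 C H ι κ v hv x
    refine ⟨a, fun c => ?_⟩
    rw [← sum_sub_distrib]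
    refine le_of_eq_of_le ?_ (ha c)
    congr 1
    exact sum_congr rfl fun i _ => by ring
  refine ⟨fun C t H h0 h1 ι κ _ _ v hv => odd_combination H h0 h1 v hv,
    fun C t H h0 h1 h2 => komlos_of_question H h0 h1 h2, ?_, ?_, h2, ⟨?_, ?_⟩⟩
  · rintro ⟨C, hC, H⟩
    have hC0 : 0 ≤ C := by
      have := const_nonneg (odd_of_question H)
      linarith
    exact ⟨_, komlos_of_question (t := (3 + 2 * C) / 6) H (by linarith) (by linarith)
      (by linarith)⟩
  · intro K C H hKC ι κ _ _ v hv _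
    exact covering_of_komlos H hKC v hv
  · rintro ⟨C, H⟩; exact ⟨_, odd_of_question H⟩
  · rintro ⟨C, H⟩; exact ⟨_, h4 C H⟩

end Pool.Agent.Results.MP_183cce_co.KomlosLink
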