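import Pool.Agent.Lib.MP_183cce_co.RR.Final

/-!
# Randomly rotated lattices generated by unit vectors have bounded `ℓ∞` covering radius

Let `A, ε > 0`.  There is a constant `C = C(A, ε)` such that for every dimension `m ≥ 1`, if `U` is
a random element of the orthogonal group `O(m)` (Haar probability measure `μ`), then, outside an
event of probability at most `exp (-m^(1-ε))`:

* (lattices) for any number of unit vectors `w j`, every point of the real span of the `U w j` is
  within `C` (maximum norm) of their integer span;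
* (all roundings of `N ≤ A m` vectors at once) for `N ≤ A m` unit vectors `v i` and all real `x i`
  there are integers `a i` with `|x i - a i| < 1` and `‖∑ (x i - a i) U v i‖_∞ ≤ C`; coordinates
  with `x i` an integer are not changed, so this contains all subfamilies, and the values
  `x i ∈ {0, 1/2}` give signings of all subfamilies;
* (one rounding, any number of vectors) the same for every fixed real vector `x` and any number of
  unit vectors.

The Haar probability measure exists (first part).
-/

set_option autoImplicit false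

open MeasureTheory Pool.Agent.Lib.MP_183cce_co.RR

namespace Pool.Agent.Results.MP_183cce_co.RandomRotation

theorem result (A ε : ℝ) (hε : 0 < ε) :
    ∃ C : ℝ, ∀ m : ℕ, 1 ≤ m → ∀ [MeasurableSpace (Matrix.orthogonalGroup (Fin m) ℝ)]
        [BorelSpace (Matrix.orthogonalGroup (Fin m) ℝ)],
      (∃ μ : Measure (Matrix.orthogonalGroup (Fin m) ℝ),
        IsProbabilityMeasure μ ∧ μ.IsHaarMeasure) ∧
      ∀ (μ : Measure (Matrix.orthogonalGroup (Fin m) ℝ)) [IsProbabilityMeasure μ]
        [μ.IsHaarMeasure],
      (∀ (n : ℕ) (w : Fin n → Fin m → ℝ), (∀ j, ∑ p, w j p ^ 2 = 1) →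
        μ {U | ¬ CoveringRadiusLE (fun j => U.1.mulVec (w j)) C}
          ≤ ENNReal.ofReal (Real.exp (-((m : ℝ) ^ (1 - ε))))) ∧
      (∀ (N : ℕ) (v : Fin N → Fin m → ℝ), (N : ℝ) ≤ A * m → (∀ i, ∑ p, v i p ^ 2 = 1) →
        μ {U | ¬ Rounds (fun i => U.1.mulVec (v i)) C}
          ≤ ENNReal.ofReal (Real.exp (-((m : ℝ) ^ (1 - ε))))) ∧
      (∀ (n : ℕ) (v : Fin n → Fin m → ℝ) (x : Fin n → ℝ), (∀ i, ∑ p, v i p ^ 2 = 1) →
        μ {U | ¬ ∃ a : Fin n → ℤ, (∀ i, |x i - a i| < 1) ∧
            ∀ p, |∑ i, (x i - a i) * (U.1.mulVec (v i)) p| ≤ C}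
          ≤ ENNReal.ofReal (Real.exp (-((m : ℝ) ^ (1 - ε))))) := by
  obtain ⟨C1, h1⟩ := lattice_main ε hε
  obtain ⟨C2, h2⟩ := rounds_main A ε hε
  obtain ⟨C3, h3⟩ := fixed_main ε hε
  refine ⟨max C1 (max C2 C3), fun m hm _ _ => ⟨haar_exists m, fun μ _ _ => ⟨?_, ?_, ?_⟩⟩⟩
  · intro n w hw
    refine (measure_mono ?_).trans (h1 m hm μ n w hw)
    intro U hU hcon
    exact hU fun x => (hcon x).imp fun a ha p => (ha p).trans (le_max_left _ _)
  · intro N v hN hv
    refine (measure_mono ?_).trans (h2 m hm μ N v hN hv)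
    intro U hU hcon
    exact hU (hcon.mono ((le_max_left _ _).trans (le_max_right _ _)))
  · intro n v x hv
    refine (measure_mono ?_).trans (h3 m hm μ n v x hv)
    rintro U hU ⟨a, ha, hb⟩
    exact hU ⟨a, ha, fun p => (hb p).trans ((le_max_right _ _).trans (le_max_right _ _))⟩

end Pool.Agent.Results.MP_183cce_co.RandomRotation
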