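import Pool.Agent.Lib.MP_183cce_co.TP.Final

/-!
# Lattices generated by vectors on paths of forests: dimension-free covering radius

For vectors which are combinations of indicator vectors of paths of a forest, where a path with `s` vertices costs
`(1 + log₂ s)⁴`, the integer span has bounded `ℓ∞` covering radius, independently of the forest, the number of
generators and the generators. In particular this holds for vectors of `ℓ_p` norm at most one, for any fixed `p`, which are
supported on a path and monotone along it, for instance the normalised indicator vectors of paths of arbitrary lengths.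

Method: an adaptive form of the Beck-Fiala argument. Every row has a potential; for every set `F` of floating variables
there are fewer than `|F|` rows such that every other row has small active mass or is close to one of them with a smaller
potential. For the sets of a laminar family of height `H` the potential depends on the `2`-adic valuation of the level, which
gives an error `O(log² H)` independent of the number of variables.
-/

set_option autoImplicit false

namespace Pool.Agent.Results.MP_183cce_co.TreePaths

open Pool.Agent.Lib.MP_183cce_co.TP

/-- Let `G κ` be finitely many forests on a finite vertex set with weights `w κ > 0`. (1) If the vectors `v i` are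
combinations `∑ lam • w_κ • 1_P` of indicators of paths `P` of the `G κ` with `∑ |lam| (1 + ⌊log₂ |P|⌋)⁴ ≤ 1`, then
every real combination of them is within `888 ∑ w κ` in `ℓ∞` of an integer combination. (2) For every `p` there is `C`
such that the same holds with `C ∑ w κ` if the `v i` are absolutely convex combinations of `w_κ • f` with `f ≥ 0` of
`ℓ_p` norm at most one, supported on a path of `G κ` and nonincreasing along it. -/
theorem result :
    (∀ {R V : Type} [Fintype R] [Fintype V] (G : R → SimpleGraph V), (∀ κ, (G κ).IsAcyclic) →
      ∀ w : R → ℝ, (∀ κ, 0 < w κ) → ∀ (n : ℕ) (v : Fin n → V → ℝ),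
        (∀ i, PathSum G w (v i)) →
          Rounds v (888 * ∑ κ, w κ) ∧ CoveringRadiusLE v (888 * ∑ κ, w κ)) ∧
    (∀ p : ℕ, 1 ≤ p → ∃ C : ℝ, ∀ {R V : Type} [Fintype R] [Fintype V]
      (G : R → SimpleGraph V), (∀ κ, (G κ).IsAcyclic) → ∀ w : R → ℝ, (∀ κ, 0 < w κ) →
      ∀ (n : ℕ) (v : Fin n → V → ℝ), (∀ i, MonoSum G w p (v i)) →
        Rounds v (C * ∑ κ, w κ) ∧ CoveringRadiusLE v (C * ∑ κ, w κ)) := by
  refine ⟨fun G hG w hw n v hv => ?_, fun p hp => ?_⟩
  · have h := path_sum_rounds G hG w hw n v hv
    exact ⟨h, h.covering⟩
  · obtain ⟨C, -, h⟩ := mono_sum_rounds p hp
    refine ⟨C, fun G hG w hw n v hv => ?_⟩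
    have h1 := h G hG w hw n v hv
    exact ⟨h1, h1.covering⟩

end Pool.Agent.Results.MP_183cce_co.TreePaths
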