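import Pool.Agent.Lib.MP_183cce_co.Examples

/-!
# A dimension-free covering radius bound for generators of small truncated variation

Let `X` be a finite grid with `d + 1` factors. Let `v 0, …, v (n-1)` be absolutely convex
combinations of products `f 0 (p 0) * ⋯ * f d (p d)`, where every `f k` has Euclidean norm at most
`1` and, for every `j`, the part of `f k` at heights between `2^{-(j+1)}` and `2^{-j}` has total
variation at most `K 2^{-δ j} / r k j` along one of `r k j` prescribed orderings of the `k`-th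
factor.  Then the `ℓ∞` covering radius of the lattice generated by the `v i` is bounded by
`C(d, δ) K^{(d+1)/(1+δ)} (1 + log K)^{4d+2}`, independently of the size of the grid, of the number
of generators, and of the generators.  Two families of examples are in
`Pool.Agent.Lib.MP_183cce_co.Examples`: functions with few monotone pieces (`pieces_bound`) and
normalised indicator functions of products of arithmetic progressions (`grid_bound`).
-/

set_option autoImplicit false

open Pool.Agent.Lib.MP_183cce_co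

namespace Pool.Agent.Results.MP_183cce_co.TruncatedVariation

theorem result (d : ℕ) (δ : ℝ) (hδ : 0 < δ) :
    ∃ C : ℝ, ∀ (m : Fin (d + 1) → ℕ) (r : Fin (d + 1) → ℕ → ℕ)
      (π : ∀ k, ℕ → ℕ → Equiv.Perm (Fin (m k))) (K : ℝ), 1 ≤ K →
      ∀ (n R : ℕ) (lam : Fin n → Fin R → ℝ) (f : Fin n → Fin R → ∀ k, Fin (m k) → ℝ)
        (v : Fin n → (∀ k, Fin (m k)) → ℝ),
      (∀ i ρ k, Tame (m k) (r k) (π k) K δ (f i ρ k)) → (∀ i, ∑ ρ, |lam i ρ| ≤ 1) →
      (∀ i p, v i p = ∑ ρ, lam i ρ * ∏ k, f i ρ k (p k)) →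
      (∀ x : Fin n → ℝ, ∃ a : Fin n → ℤ, (∀ i, |x i - a i| ≤ 1) ∧
        ∀ p, |∑ i, (x i - a i) * v i p|
          ≤ C * K ^ (((d : ℝ) + 1) / (1 + δ)) * (1 + Real.log K) ^ (4 * d + 2)) ∧
      CoveringRadiusLE v
        (C * K ^ (((d : ℝ) + 1) / (1 + δ)) * (1 + Real.log K) ^ (4 * d + 2)) := by
  obtain ⟨C, -, hC⟩ := main_bound d δ hδ
  refine ⟨C, fun m r π K hK n R lam f v hf hlam hv => ?_⟩
  have hve : v = fun i p => ∑ ρ, lam i ρ * ∏ k, f i ρ k (p k) := by
    funext i p
    exact hv i p
  have h : Rounds v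
      (C * K ^ (((d : ℝ) + 1) / (1 + δ)) * (1 + Real.log K) ^ (4 * d + 2)) := by
    rw [hve]
    exact hC m r π K hK n R lam f hf hlam
  exact ⟨h, h.covering⟩

end Pool.Agent.Results.MP_183cce_co.TruncatedVariation
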